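import Mathlib

/-!
Elementary facts on the ideal `(a, b)` generated by a regular pair in a domain.
-/

set_option autoImplicit false

namespace Pool.Agent.P.MP_c61c44_al

variable {B : Type} [CommRing B]

theorem mem_pow_mul {n : Ideal B} {x y : B} {i j k : ℕ} (hx : x ∈ n ^ i) (hy : y ∈ n ^ j)
    (h : k ≤ i + j) : x * y ∈ n ^ k :=
  Ideal.pow_le_pow_right h (by rw [pow_add]; exact Ideal.mul_mem_mul hx hy)

theorem left_mem_pair (a b : B) : a ∈ Ideal.span {a, b} := Ideal.subset_span (by simp)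
theorem right_mem_pair (a b : B) : b ∈ Ideal.span {a, b} := Ideal.subset_span (by simp)

theorem mem_pow_succ {a b y : B} {j : ℕ} (hy : y ∈ Ideal.span {a, b} ^ (j + 1)) :
    ∃ s ∈ Ideal.span {a, b} ^ j, ∃ t, y = a * s + b ^ (j + 1) * t := by
  induction j generalizing y with
  | zero =>
    rw [zero_add, pow_one, Ideal.mem_span_pair] at hy
    obtain ⟨s, t, rfl⟩ := hy
    exact ⟨s, by simp, t, by ring⟩
  | succ j ih =>
    rw [pow_succ] at hy
    refine Submodule.mul_induction_on hy (fun x hx z hz => ?_) ?_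
    · obtain ⟨s, hs, t, rfl⟩ := ih hx
      have hz' := hz
      rw [Ideal.mem_span_pair] at hz'
      obtain ⟨p, q, rfl⟩ := hz'
      refine ⟨s * (p * a + q * b) + b ^ (j + 1) * (t * p), add_mem ?_ ?_, t * q, by ring⟩
      · rw [pow_succ]; exact Ideal.mul_mem_mul hs hz
      · exact Ideal.mul_mem_right _ _ (Ideal.pow_mem_pow (right_mem_pair a b) _)
    · rintro _ _ ⟨s, hs, t, rfl⟩ ⟨s', hs', t', rfl⟩
      exact ⟨s + s', add_mem hs hs', t + t', by ring⟩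

theorem dvd_of_dvd_pow_mul {a b : B} (h : ∀ y, a ∣ b * y → a ∣ y) (j : ℕ) (y : B)
    (hy : a ∣ b ^ j * y) : a ∣ y := by
  induction j with
  | zero => simpa using hy
  | succ j ih => exact ih (h _ (by rw [← mul_assoc, ← pow_succ']; exact hy))

theorem mem_pow_of_mul_mem [IsDomain B] {a b y : B} (ha : a ≠ 0) (h : ∀ y, a ∣ b * y → a ∣ y)
    {j : ℕ} (hy : a * y ∈ Ideal.span {a, b} ^ (j + 1)) : y ∈ Ideal.span {a, b} ^ j := by
  obtain ⟨s, hs, t, e⟩ := mem_pow_succ hy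
  obtain ⟨t', rfl⟩ := dvd_of_dvd_pow_mul h (j + 1) t ⟨y - s, by linear_combination -e⟩
  have : y = s + b ^ (j + 1) * t' := mul_left_cancel₀ ha (by linear_combination e)
  rw [this]
  exact add_mem hs (Ideal.mul_mem_right _ _
    (Ideal.pow_le_pow_right (Nat.le_succ j) (Ideal.pow_mem_pow (right_mem_pair a b) _)))

theorem swap_regular [IsDomain B] {a b : B} (ha : a ≠ 0) (h : ∀ y, a ∣ b * y → a ∣ y) (y : B)
    (hy : b ∣ a * y) : b ∣ y := by
  obtain ⟨z, hz⟩ := hy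
  obtain ⟨z', rfl⟩ := h z ⟨y, hz.symm⟩
  exact ⟨z', mul_left_cancel₀ ha (by linear_combination hz)⟩

theorem mem_pow_five {a b y : B} {j : ℕ} (hy : y ∈ Ideal.span {a, b} ^ (j + 5)) :
    ∃ s ∈ Ideal.span {a, b} ^ (j + 2), ∃ t ∈ Ideal.span {a, b} ^ (j + 2),
      y = a ^ 3 * s + b ^ 3 * t := by
  obtain ⟨s4, h4, t5, rfl⟩ := mem_pow_succ hy
  obtain ⟨s3, h3, t4, rfl⟩ := mem_pow_succ h4
  obtain ⟨s2, h2, t3, rfl⟩ := mem_pow_succ h3
  have ha := left_mem_pair a b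
  have hb := right_mem_pair a b
  refine ⟨s2, h2, a ^ 2 * b ^ j * t3 + a ^ 1 * b ^ (j + 1) * t4 + b ^ (j + 2) * t5,
    add_mem (add_mem ?_ ?_) ?_, by ring⟩
  · exact Ideal.mul_mem_right _ _
      (mem_pow_mul (Ideal.pow_mem_pow ha 2) (Ideal.pow_mem_pow hb j) (by omega))
  · exact Ideal.mul_mem_right _ _
      (mem_pow_mul (Ideal.pow_mem_pow ha 1) (Ideal.pow_mem_pow hb (j + 1)) (by omega))
  · exact Ideal.mul_mem_right _ _ (Ideal.pow_mem_pow hb _)

theorem sq_mul_sq_ne [IsDomain B] {a b : B} (ha : a ≠ 0) (hb : b ≠ 0)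
    (h : ∀ y, a ∣ b * y → a ∣ y) (hn : Ideal.span {a, b} ≠ ⊤) (s t : B) :
    a ^ 2 * b ^ 2 ≠ a ^ 3 * s + b ^ 3 * t := by
  intro e
  obtain ⟨s1, hs1⟩ := dvd_of_dvd_pow_mul (swap_regular ha h) 3 s
    ⟨a ^ 2 * b - b ^ 2 * t, by linear_combination -e⟩
  subst hs1
  have e1 : a ^ 2 * b = a ^ 3 * s1 + b ^ 2 * t := mul_left_cancel₀ hb (by linear_combination e)
  obtain ⟨s2, hs2⟩ := dvd_of_dvd_pow_mul (swap_regular ha h) 3 s1
    ⟨a ^ 2 - b * t, by linear_combination -e1⟩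
  subst hs2
  have e2 : a ^ 2 = a ^ 3 * s2 + b * t := mul_left_cancel₀ hb (by linear_combination e1)
  obtain ⟨q, hq⟩ := dvd_of_dvd_pow_mul (swap_regular ha h) 2 (1 - a * s2)
    ⟨t, by linear_combination e2⟩
  refine hn ((Ideal.eq_top_iff_one _).2 (Ideal.mem_span_pair.2 ⟨s2, q, ?_⟩))
  linear_combination -hq

theorem not_reduction [IsDomain B] {x y : B} (hy : y ≠ 0) (h : ∀ z, y ∣ x * z → y ∣ z)
    (hn : Ideal.span {x, y} ≠ ⊤) (J : Ideal B)
    (hJ : ∀ z ∈ J, ∃ p, ∃ q ∈ Ideal.span {x, y}, z = x * p + y * q) (r : ℕ) :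
    J * Ideal.span {x, y} ^ r ≠ Ideal.span {x, y} ^ (r + 1) := by
  intro e
  have h1 : y ^ (r + 1) ∈ J * Ideal.span {x, y} ^ r := by
    rw [e]; exact Ideal.pow_mem_pow (right_mem_pair x y) _
  have h2 : ∃ s t, y ^ (r + 1) = x * s + y ^ (r + 2) * t := by
    refine Submodule.mul_induction_on h1 (fun z hz w hw => ?_) ?_
    · obtain ⟨p, q, hq, rfl⟩ := hJ z hz
      have : q * w ∈ Ideal.span {x, y} ^ (r + 1) := by
        rw [pow_succ']; exact Ideal.mul_mem_mul hq hw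
      obtain ⟨s, -, t, e'⟩ := mem_pow_succ this
      exact ⟨p * w + y * s, t, by linear_combination y * e'⟩
    · rintro _ _ ⟨s, t, rfl⟩ ⟨s', t', rfl⟩
      exact ⟨s + s', t + t', by ring⟩
  obtain ⟨s, t, e'⟩ := h2
  obtain ⟨q, hq⟩ := dvd_of_dvd_pow_mul (swap_regular hy h) (r + 1) (1 - y * t)
    ⟨s, by linear_combination e'⟩
  refine hn ((Ideal.eq_top_iff_one _).2 (Ideal.mem_span_pair.2 ⟨q, t, ?_⟩))
  linear_combination -hq

open PowerSeries in
theorem maximalIdeal_powerSeries₂ :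
    IsLocalRing.maximalIdeal ℚ⟦X⟧⟦X⟧ = Ideal.span {X, C X} := by
  apply le_antisymm
  · intro y hy
    rw [IsLocalRing.mem_maximalIdeal, mem_nonunits_iff, isUnit_iff_constantCoeff,
      isUnit_iff_constantCoeff, isUnit_iff_ne_zero, not_not] at hy
    obtain ⟨s, hs⟩ := X_dvd_iff.2 hy
    obtain ⟨t, ht⟩ := (X_dvd_iff (φ := y - C (constantCoeff y))).2 (by simp)
    refine Ideal.mem_span_pair.2 ⟨t, C s, ?_⟩
    rw [hs, map_mul] at ht
    linear_combination -ht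
  · rw [Ideal.span_le]
    rintro y (rfl | rfl) <;>
      simp [IsLocalRing.mem_maximalIdeal, mem_nonunits_iff, isUnit_iff_constantCoeff]

open PowerSeries in
theorem regular_powerSeries₂ (y : ℚ⟦X⟧⟦X⟧) (h : (X : ℚ⟦X⟧⟦X⟧) ∣ C X * y) : X ∣ y := by
  refine (X_prime.dvd_or_dvd h).resolve_left fun h' => ?_
  simpa [X_ne_zero] using X_dvd_iff.1 h'

end Pool.Agent.P.MP_c61c44_al
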