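import Mathlib
import Pool.Agent.P.MP_c61c44_al.Base

/-!
The ring `B[u, v, w] / (u^5 - a^3 w, v^5 - b^3 w, u v, u w, v w, w^2)`, free of rank ten over `B`
with basis `1, u, …, u^4, v, …, v^4, w`.
-/

set_option autoImplicit false

namespace Pool.Agent.P.MP_c61c44_al

open IsLocalRing

@[ext] structure Rg {B : Type} (a b : B) where
  c : B
  u1 : B
  u2 : B
  u3 : B
  u4 : B
  v1 : B
  v2 : B
  v3 : B
  v4 : B
  w : B

namespace Rg

variable {B : Type} [CommRing B] {a b : B}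

instance : Zero (Rg a b) := ⟨⟨0, 0, 0, 0, 0, 0, 0, 0, 0, 0⟩⟩
instance : One (Rg a b) := ⟨⟨1, 0, 0, 0, 0, 0, 0, 0, 0, 0⟩⟩
instance : Add (Rg a b) := ⟨fun x y => ⟨x.c + y.c, x.u1 + y.u1, x.u2 + y.u2, x.u3 + y.u3,
  x.u4 + y.u4, x.v1 + y.v1, x.v2 + y.v2, x.v3 + y.v3, x.v4 + y.v4, x.w + y.w⟩⟩
instance : Neg (Rg a b) :=
  ⟨fun x => ⟨-x.c, -x.u1, -x.u2, -x.u3, -x.u4, -x.v1, -x.v2, -x.v3, -x.v4, -x.w⟩⟩
instance : Mul (Rg a b) := ⟨fun x y => ⟨x.c * y.c,
  x.c * y.u1 + x.u1 * y.c,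
  x.c * y.u2 + x.u1 * y.u1 + x.u2 * y.c,
  x.c * y.u3 + x.u1 * y.u2 + x.u2 * y.u1 + x.u3 * y.c,
  x.c * y.u4 + x.u1 * y.u3 + x.u2 * y.u2 + x.u3 * y.u1 + x.u4 * y.c,
  x.c * y.v1 + x.v1 * y.c,
  x.c * y.v2 + x.v1 * y.v1 + x.v2 * y.c,
  x.c * y.v3 + x.v1 * y.v2 + x.v2 * y.v1 + x.v3 * y.c,
  x.c * y.v4 + x.v1 * y.v3 + x.v2 * y.v2 + x.v3 * y.v1 + x.v4 * y.c,
  x.c * y.w + x.w * y.c + a ^ 3 * (x.u1 * y.u4 + x.u2 * y.u3 + x.u3 * y.u2 + x.u4 * y.u1) +
    b ^ 3 * (x.v1 * y.v4 + x.v2 * y.v3 + x.v3 * y.v2 + x.v4 * y.v1)⟩⟩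

theorem zero_def : (0 : Rg a b) = ⟨0, 0, 0, 0, 0, 0, 0, 0, 0, 0⟩ := rfl
theorem one_def : (1 : Rg a b) = ⟨1, 0, 0, 0, 0, 0, 0, 0, 0, 0⟩ := rfl
theorem add_def (x y : Rg a b) : x + y = ⟨x.c + y.c, x.u1 + y.u1, x.u2 + y.u2, x.u3 + y.u3,
  x.u4 + y.u4, x.v1 + y.v1, x.v2 + y.v2, x.v3 + y.v3, x.v4 + y.v4, x.w + y.w⟩ := rfl
theorem neg_def (x : Rg a b) :
  -x = ⟨-x.c, -x.u1, -x.u2, -x.u3, -x.u4, -x.v1, -x.v2, -x.v3, -x.v4, -x.w⟩ := rfl
theorem mul_def (x y : Rg a b) : x * y = ⟨x.c * y.c,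
  x.c * y.u1 + x.u1 * y.c,
  x.c * y.u2 + x.u1 * y.u1 + x.u2 * y.c,
  x.c * y.u3 + x.u1 * y.u2 + x.u2 * y.u1 + x.u3 * y.c,
  x.c * y.u4 + x.u1 * y.u3 + x.u2 * y.u2 + x.u3 * y.u1 + x.u4 * y.c,
  x.c * y.v1 + x.v1 * y.c,
  x.c * y.v2 + x.v1 * y.v1 + x.v2 * y.c,
  x.c * y.v3 + x.v1 * y.v2 + x.v2 * y.v1 + x.v3 * y.c,
  x.c * y.v4 + x.v1 * y.v3 + x.v2 * y.v2 + x.v3 * y.v1 + x.v4 * y.c,
  x.c * y.w + x.w * y.c + a ^ 3 * (x.u1 * y.u4 + x.u2 * y.u3 + x.u3 * y.u2 + x.u4 * y.u1) +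
    b ^ 3 * (x.v1 * y.v4 + x.v2 * y.v3 + x.v3 * y.v2 + x.v4 * y.v1)⟩ := rfl

instance : CommRing (Rg a b) := CommRing.ofMinimalAxioms
  (fun x y z => by ext <;> simp only [add_def] <;> ring)
  (fun x => by ext <;> simp only [add_def, zero_def] <;> ring)
  (fun x => by ext <;> simp only [add_def, zero_def, neg_def] <;> ring)
  (fun x y z => by ext <;> simp only [mul_def] <;> ring)
  (fun x y => by ext <;> simp only [mul_def] <;> ring)
  (fun x => by ext <;> simp only [mul_def, one_def] <;> ring)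
  (fun x y z => by ext <;> simp only [mul_def, add_def] <;> ring)

variable (a b) in
def ι : B →+* Rg a b where
  toFun y := ⟨y, 0, 0, 0, 0, 0, 0, 0, 0, 0⟩
  map_one' := rfl
  map_zero' := rfl
  map_mul' x y := by ext <;> simp [mul_def]
  map_add' x y := by ext <;> simp [add_def]

def π : Rg a b →+* B where
  toFun x := x.c
  map_one' := rfl
  map_zero' := rfl
  map_mul' _ _ := rfl
  map_add' _ _ := rfl

theorem ι_def (y : B) : ι a b y = ⟨y, 0, 0, 0, 0, 0, 0, 0, 0, 0⟩ := rfl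
theorem π_def (x : Rg a b) : π x = x.c := rfl

theorem ι_mul (y : B) (x : Rg a b) : ι a b y * x = ⟨y * x.c, y * x.u1, y * x.u2, y * x.u3,
    y * x.u4, y * x.v1, y * x.v2, y * x.v3, y * x.v4, y * x.w⟩ := by
  ext <;> simp [mul_def, ι_def]

def U : Rg a b := ⟨0, 1, 0, 0, 0, 0, 0, 0, 0, 0⟩
def V : Rg a b := ⟨0, 0, 0, 0, 0, 1, 0, 0, 0, 0⟩
def W : Rg a b := ⟨0, 0, 0, 0, 0, 0, 0, 0, 0, 1⟩

theorem decomp (x : Rg a b) : x = ι a b x.c + ι a b x.u1 * U ^ 1 + ι a b x.u2 * U ^ 2 +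
    ι a b x.u3 * U ^ 3 + ι a b x.u4 * U ^ 4 + ι a b x.v1 * V ^ 1 + ι a b x.v2 * V ^ 2 +
    ι a b x.v3 * V ^ 3 + ι a b x.v4 * V ^ 4 + ι a b x.w * W := by
  simp only [pow_succ, pow_zero, one_mul]
  ext <;> simp [mul_def, add_def, ι_def, U, V, W]

theorem U_pow_five : (U : Rg a b) ^ 5 = ι a b (a ^ 3) * W := by
  simp only [pow_succ (U : Rg a b), pow_zero, one_mul]
  ext <;> simp [mul_def, ι_def, U, W]

theorem V_pow_five : (V : Rg a b) ^ 5 = ι a b (b ^ 3) * W := by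
  simp only [pow_succ (V : Rg a b), pow_zero, one_mul]
  ext <;> simp [mul_def, ι_def, V, W]

theorem isNilpotent_of_c (x : Rg a b) (h : x.c = 0) : IsNilpotent x := by
  refine ⟨6, ?_⟩
  simp only [pow_succ, pow_zero, one_mul]
  ext <;> simp [mul_def, zero_def, h]

theorem isUnit_iff (x : Rg a b) : IsUnit x ↔ IsUnit x.c := by
  refine ⟨fun h => h.map π, fun h => ?_⟩
  have h1 : IsNilpotent (x - ι a b x.c) := isNilpotent_of_c _ (by
    rw [← π_def, map_sub]; simp [π_def, ι_def])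
  have := h1.isUnit_add_left_of_commute (h.map (ι a b)) (Commute.all _ _)
  simpa using this

instance : Algebra B (Rg a b) := (ι a b).toAlgebra

instance : Module.Finite B (Rg a b) := by
  refine ⟨Submodule.fg_def.2 ⟨{1, U ^ 1, U ^ 2, U ^ 3, U ^ 4, V ^ 1, V ^ 2, V ^ 3, V ^ 4, W},
    Set.toFinite _, eq_top_iff.2 fun x _ => ?_⟩⟩
  rw [decomp x, ← mul_one (ι a b x.c)]
  refine add_mem (add_mem (add_mem (add_mem (add_mem (add_mem (add_mem (add_mem (add_mem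
    ?_ ?_) ?_) ?_) ?_) ?_) ?_) ?_) ?_) ?_ <;>
    exact Submodule.smul_mem _ _ (Submodule.subset_span (by simp))

instance [IsNoetherianRing B] : IsNoetherianRing (Rg a b) := IsNoetherianRing.of_finite B _

instance [Nontrivial B] : Nontrivial (Rg a b) := π.domain_nontrivial

instance [IsLocalRing B] : IsLocalRing (Rg a b) :=
  IsLocalRing.of_isUnit_or_isUnit_one_sub_self fun x => by
    rw [isUnit_iff, isUnit_iff, ← π_def (1 - x), map_sub, map_one]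
    exact isUnit_or_isUnit_one_sub_self _

theorem mem_max [IsLocalRing B] (x : Rg a b) :
    x ∈ maximalIdeal (Rg a b) ↔ x.c ∈ maximalIdeal B := by
  simp only [mem_maximalIdeal, mem_nonunits_iff, isUnit_iff]

/-- the description of the `n`-th power of the maximal ideal -/
def InM (n : ℕ) (x : Rg a b) : Prop :=
  x.c ∈ Ideal.span {a, b} ^ n ∧
  x.u1 ∈ Ideal.span {a, b} ^ (n - 1) ∧ x.u2 ∈ Ideal.span {a, b} ^ (n - 2) ∧
  x.u3 ∈ Ideal.span {a, b} ^ (n - 3) ∧ x.u4 ∈ Ideal.span {a, b} ^ (n - 4) ∧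
  x.v1 ∈ Ideal.span {a, b} ^ (n - 1) ∧ x.v2 ∈ Ideal.span {a, b} ^ (n - 2) ∧
  x.v3 ∈ Ideal.span {a, b} ^ (n - 3) ∧ x.v4 ∈ Ideal.span {a, b} ^ (n - 4) ∧
  ∃ p ∈ Ideal.span {a, b} ^ (n - 1), ∃ s ∈ Ideal.span {a, b} ^ (n - 5),
    ∃ t ∈ Ideal.span {a, b} ^ (n - 5), x.w = p + a ^ 3 * s + b ^ 3 * t

theorem InM.add {n : ℕ} {x y : Rg a b} (hx : InM n x) (hy : InM n y) : InM n (x + y) := by
  obtain ⟨h0, h1, h2, h3, h4, h5, h6, h7, h8, p, hp, s, hs, t, ht, e⟩ := hx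
  obtain ⟨k0, k1, k2, k3, k4, k5, k6, k7, k8, p', hp', s', hs', t', ht', e'⟩ := hy
  exact ⟨add_mem h0 k0, add_mem h1 k1, add_mem h2 k2, add_mem h3 k3, add_mem h4 k4, add_mem h5 k5,
    add_mem h6 k6, add_mem h7 k7, add_mem h8 k8, _, add_mem hp hp', _, add_mem hs hs', _,
    add_mem ht ht', by simp only [add_def, e, e']; ring⟩

theorem InM.mul {n : ℕ} {x y : Rg a b} (hx : InM n x) (hy : y.c ∈ Ideal.span {a, b}) :
    InM (n + 1) (x * y) := by
  obtain ⟨h0, h1, h2, h3, h4, h5, h6, h7, h8, p, hp, s, hs, t, ht, e⟩ := hx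
  have k1 : y.c ∈ Ideal.span {a, b} ^ 1 := by rwa [pow_one]
  have k0 : ∀ z : B, z ∈ Ideal.span {a, b} ^ 0 := fun z => by simp
  refine ⟨mem_pow_mul h0 k1 le_rfl, ?_, ?_, ?_, ?_, ?_, ?_, ?_, ?_,
    x.c * y.w + p * y.c, ?_,
    s * y.c + (x.u1 * y.u4 + x.u2 * y.u3 + x.u3 * y.u2 + x.u4 * y.u1), ?_,
    t * y.c + (x.v1 * y.v4 + x.v2 * y.v3 + x.v3 * y.v2 + x.v4 * y.v1), ?_,
    by simp only [mul_def, e]; ring⟩
  all_goals
    try simp only [mul_def]
    repeat' apply add_mem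
    all_goals first
      | exact mem_pow_mul ‹_› k1 (by omega)
      | exact mem_pow_mul ‹_› (k0 _) (by omega)

variable [IsLocalRing B] (hn : maximalIdeal B = Ideal.span {a, b})
include hn

theorem inM_of_mem (n : ℕ) : ∀ x ∈ maximalIdeal (Rg a b) ^ n, InM n x := by
  induction n with
  | zero => intro x _; exact ⟨by simp, by simp, by simp, by simp, by simp, by simp, by simp,
      by simp, by simp, x.w, by simp, 0, by simp, 0, by simp, by simp⟩
  | succ n ih =>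
    intro x hx
    rw [pow_succ] at hx
    exact Submodule.mul_induction_on hx
      (fun y hy z hz => (ih y hy).mul (hn ▸ (mem_max z).1 hz)) fun _ _ => InM.add

variable (a b) in
/-- the minimal reduction -/
def I₀ : Ideal (Rg a b) := Ideal.span {ι a b a, ι a b b}

omit hn [IsLocalRing B] in
theorem ι_mem_pow {y : B} {j : ℕ} (hy : y ∈ Ideal.span {a, b} ^ j) : ι a b y ∈ I₀ a b ^ j := by
  have := Ideal.mem_map_of_mem (ι a b) hy
  rwa [Ideal.map_pow, Ideal.map_span, Set.image_pair] at this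

theorem I₀_le : I₀ a b ≤ maximalIdeal (Rg a b) := by
  rw [I₀, Ideal.span_le]
  rintro y (rfl | rfl)
  · exact (mem_max _).2 (hn ▸ left_mem_pair a b)
  · exact (mem_max _).2 (hn ▸ right_mem_pair a b)

omit hn in
theorem U_mem : (U : Rg a b) ∈ maximalIdeal (Rg a b) := (mem_max _).2 (zero_mem _)
omit hn in
theorem V_mem : (V : Rg a b) ∈ maximalIdeal (Rg a b) := (mem_max _).2 (zero_mem _)
omit hn in
theorem W_mem : (W : Rg a b) ∈ maximalIdeal (Rg a b) := (mem_max _).2 (zero_mem _)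

theorem ι_mul_mem {y : B} {z : Rg a b} {e i j k : ℕ} (hy : y ∈ Ideal.span {a, b} ^ j)
    (hz : z ∈ maximalIdeal (Rg a b) ^ i) (he : e ≤ j) (hk : e + k ≤ j + i) :
    ι a b y * z ∈ I₀ a b ^ e * maximalIdeal (Rg a b) ^ k := by
  obtain ⟨j', rfl⟩ := Nat.exists_eq_add_of_le he
  have h1 : I₀ a b ^ (e + j') * maximalIdeal (Rg a b) ^ i ≤
      I₀ a b ^ e * maximalIdeal (Rg a b) ^ k := by
    rw [pow_add, mul_assoc]
    refine Ideal.mul_mono_right (le_trans ?_ (Ideal.pow_le_pow_right (show k ≤ j' + i by omega)))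
    rw [pow_add]
    exact Ideal.mul_mono_left (Ideal.pow_right_mono (I₀_le hn) _)
  exact h1 (Ideal.mul_mem_mul (ι_mem_pow hy) hz)

theorem mem_of_inM {n e k : ℕ} (he : e ≤ n - 5) (hk : e + k ≤ n) {x : Rg a b} (hx : InM n x) :
    x ∈ I₀ a b ^ e * maximalIdeal (Rg a b) ^ k := by
  obtain ⟨h0, h1, h2, h3, h4, h5, h6, h7, h8, p, hp, s, hs, t, ht, e'⟩ := hx
  have hw : ι a b x.w * W = ι a b p * W ^ 1 + ι a b s * U ^ 5 + ι a b t * V ^ 5 := by
    rw [U_pow_five, V_pow_five, e']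
    simp only [map_add, map_mul]
    ring
  rw [decomp x, hw, ← mul_one (ι a b x.c), ← pow_zero U]
  repeat' apply add_mem
  all_goals first
    | exact ι_mul_mem hn ‹_› (Ideal.pow_mem_pow U_mem _) (by omega) (by omega)
    | exact ι_mul_mem hn ‹_› (Ideal.pow_mem_pow V_mem _) (by omega) (by omega)
    | exact ι_mul_mem hn ‹_› (Ideal.pow_mem_pow W_mem _) (by omega) (by omega)

theorem mem_pow_iff (n : ℕ) (x : Rg a b) : x ∈ maximalIdeal (Rg a b) ^ n ↔ InM n x :=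
  ⟨inM_of_mem hn n x, fun h => by simpa using mem_of_inM hn (e := 0) (k := n) (by omega) (by omega) h⟩

theorem red_ge_five (k : ℕ) (hk : 5 ≤ k) :
    I₀ a b * maximalIdeal (Rg a b) ^ k = maximalIdeal (Rg a b) ^ (k + 1) := by
  apply le_antisymm
  · rw [pow_succ']
    exact Ideal.mul_mono_left (I₀_le hn)
  · intro x hx
    simpa using mem_of_inM hn (e := 1) (k := k) (by omega) (by omega) (inM_of_mem hn _ x hx)

variable [IsDomain B] (ha : a ≠ 0) (hb : b ≠ 0) (hab : ∀ y, a ∣ b * y → a ∣ y)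

omit [IsDomain B] in
theorem pair_ne_top : Ideal.span {a, b} ≠ ⊤ := hn ▸ (maximalIdeal.isMaximal B).ne_top

include ha hab in
theorem red_four : I₀ a b * maximalIdeal (Rg a b) ^ 4 ≠ maximalIdeal (Rg a b) ^ 5 := by
  intro e
  have h1 : (U : Rg a b) ^ 5 ∈ I₀ a b * maximalIdeal (Rg a b) ^ 4 := by
    rw [e]; exact Ideal.pow_mem_pow U_mem _
  have h0 : ∀ q ∈ maximalIdeal (Rg a b) ^ 4, q.w ∈ Ideal.span {a, b} ^ 3 := by
    intro q hq
    obtain ⟨-, -, -, -, -, -, -, -, -, p, hp, s, -, t, -, e'⟩ := inM_of_mem hn 4 q hq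
    rw [e']
    exact add_mem (add_mem hp (Ideal.mul_mem_right _ _ (Ideal.pow_mem_pow (left_mem_pair a b) 3)))
      (Ideal.mul_mem_right _ _ (Ideal.pow_mem_pow (right_mem_pair a b) 3))
  have h2 : ∀ x ∈ I₀ a b * maximalIdeal (Rg a b) ^ 4, x.w ∈ Ideal.span {a, b} ^ 4 := by
    intro x hx
    refine Submodule.mul_induction_on hx (fun p hp q hq => ?_) fun x y hx hy => add_mem hx hy
    obtain ⟨p1, p2, rfl⟩ := Ideal.mem_span_pair.1 hp
    have : (p1 * ι a b a + p2 * ι a b b) * q = ι a b a * (p1 * q) + ι a b b * (p2 * q) := by ring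
    rw [this, ι_mul, ι_mul, pow_succ']
    exact add_mem (Ideal.mul_mem_mul (left_mem_pair a b) (h0 _ (Ideal.mul_mem_left _ _ hq)))
      (Ideal.mul_mem_mul (right_mem_pair a b) (h0 _ (Ideal.mul_mem_left _ _ hq)))
  have h3 := h2 _ h1
  rw [U_pow_five, ι_mul] at h3
  have h4 : a * (a * (a * 1)) ∈ Ideal.span {a, b} ^ (1 + 1 + 1 + 1) := by
    have : a * (a * (a * 1)) = a ^ 3 * 1 := by ring
    rw [this]; exact h3
  have h5 := mem_pow_of_mul_mem ha hab (mem_pow_of_mul_mem ha hab (mem_pow_of_mul_mem ha hab h4))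
  rw [pow_one] at h5
  exact pair_ne_top hn ((Ideal.eq_top_iff_one _).2 h5)

include ha hab in
theorem red_lower (n : ℕ) (h : I₀ a b * maximalIdeal (Rg a b) ^ n = maximalIdeal (Rg a b) ^ (n + 1)) :
    5 ≤ n := by
  by_contra hlt
  obtain ⟨j, hj⟩ : ∃ j, n + j = 4 := ⟨4 - n, by omega⟩
  refine red_four hn ha hab ?_
  rw [← hj, pow_add, ← mul_assoc, h, ← pow_add]
  congr 1
  omega

include ha hb hab in
theorem not_full_five : (maximalIdeal (Rg a b) ^ 7).colon (maximalIdeal (Rg a b)) ≠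
    maximalIdeal (Rg a b) ^ 6 := by
  intro e
  have h1 : ι a b (a ^ 2 * b ^ 2) * W ∈ maximalIdeal (Rg a b) ^ 6 := by
    rw [← e, Submodule.mem_colon]
    intro y hy
    have hy' : y.c ∈ Ideal.span {a, b} ^ 1 := by rw [pow_one, ← hn]; exact (mem_max y).1 hy
    have h5 : a ^ 2 * b ^ 2 * y.c ∈ Ideal.span {a, b} ^ (0 + 5) :=
      mem_pow_mul (mem_pow_mul (Ideal.pow_mem_pow (left_mem_pair a b) 2)
        (Ideal.pow_mem_pow (right_mem_pair a b) 2) (k := 4) le_rfl) hy' le_rfl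
    obtain ⟨s, hs, t, ht, e'⟩ := mem_pow_five h5
    rw [smul_eq_mul, mem_pow_iff hn]
    refine ⟨?_, ?_, ?_, ?_, ?_, ?_, ?_, ?_, ?_, 0, zero_mem _, s, hs, t, ht, ?_⟩ <;>
      simp [mul_def, ι_def, W, e']
  obtain ⟨-, -, -, -, -, -, -, -, -, p, hp, s, -, t, -, e'⟩ := inM_of_mem hn 6 _ h1
  obtain ⟨s', -, t', -, rfl⟩ := mem_pow_five (j := 0) hp
  rw [ι_mul] at e'
  refine sq_mul_sq_ne ha hb hab (pair_ne_top hn) (s' + s) (t' + t) ?_
  simp only [W, mul_one] at e'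
  linear_combination e'

include ha hab in
theorem full_ge_six (k : ℕ) (hk : 6 ≤ k) :
    (maximalIdeal (Rg a b) ^ (k + 2)).colon (maximalIdeal (Rg a b)) =
      maximalIdeal (Rg a b) ^ (k + 1) := by
  apply le_antisymm
  · intro x hx
    obtain ⟨j, rfl⟩ : ∃ j, k = j + 6 := ⟨k - 6, by omega⟩
    have h := Submodule.mem_colon.1 hx (ι a b a) (I₀_le hn (left_mem_pair _ _))
    rw [smul_eq_mul, mul_comm, ι_mul, mem_pow_iff hn] at h
    obtain ⟨h0, h1, h2, h3, h4, h5, h6, h7, h8, p, hp, s, hs, t, ht, e⟩ := h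
    have hw : a * x.w ∈ Ideal.span {a, b} ^ (j + 5 + 1) := by
      simp only at e
      rw [e]
      exact add_mem (add_mem (Ideal.pow_le_pow_right (by omega) hp)
        (mem_pow_mul (Ideal.pow_mem_pow (left_mem_pair a b) 3) hs (by omega)))
        (mem_pow_mul (Ideal.pow_mem_pow (right_mem_pair a b) 3) ht (by omega))
    obtain ⟨s', hs', t', ht', e'⟩ := mem_pow_five (mem_pow_of_mul_mem ha hab hw)
    rw [mem_pow_iff hn]
    exact ⟨mem_pow_of_mul_mem ha hab h0, mem_pow_of_mul_mem ha hab h1,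
      mem_pow_of_mul_mem ha hab h2, mem_pow_of_mul_mem ha hab h3, mem_pow_of_mul_mem ha hab h4,
      mem_pow_of_mul_mem ha hab h5, mem_pow_of_mul_mem ha hab h6, mem_pow_of_mul_mem ha hab h7,
      mem_pow_of_mul_mem ha hab h8, 0, zero_mem _, s', hs', t', ht', by rw [e', zero_add]⟩
  · intro x hx
    rw [Submodule.mem_colon]
    intro y hy
    rw [smul_eq_mul, pow_succ]
    exact Ideal.mul_mem_mul hx hy

omit [IsDomain B] in
theorem map_π_max : (maximalIdeal (Rg a b)).map π = Ideal.span {a, b} := by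
  apply le_antisymm
  · rw [Ideal.map_le_iff_le_comap]
    intro x hx
    rw [Ideal.mem_comap, ← hn]
    exact (mem_max x).1 hx
  · intro y hy
    exact Ideal.mem_map_of_mem π (x := ι a b y) ((mem_max _).2 (hn ▸ hy))

include ha hb hab in
theorem I₀_minimal (J : Ideal (Rg a b)) (hJ : J ≤ I₀ a b) (r : ℕ)
    (hr : J * maximalIdeal (Rg a b) ^ r = maximalIdeal (Rg a b) ^ (r + 1)) : I₀ a b ≤ J := by
  have hr' : J.map π * Ideal.span {a, b} ^ r = Ideal.span {a, b} ^ (r + 1) := by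
    have := congrArg (Ideal.map π) hr
    rwa [Ideal.map_mul, Ideal.map_pow, Ideal.map_pow, map_π_max hn] at this
  have hsurj : Function.Surjective (π : Rg a b → B) := fun y => ⟨ι a b y, rfl⟩
  have πa : π (ι a b a) = a := rfl
  have πb : π (ι a b b) = b := rfl
  by_cases h1 : ∃ p q : Rg a b, p * ι a b a + q * ι a b b ∈ J ∧ IsUnit p
  · obtain ⟨p, q, hx, hp⟩ := h1
    obtain ⟨p', hp'⟩ := hp.exists_left_inv
    by_cases h2 : ∃ p₂ q₂ : Rg a b, p₂ * ι a b a + q₂ * ι a b b ∈ J ∧ IsUnit (q₂ - p₂ * p' * q)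
    · obtain ⟨p₂, q₂, hx₂, hu⟩ := h2
      obtain ⟨d, hd⟩ := hu.exists_left_inv
      have hbJ : ι a b b ∈ J := by
        have := J.mul_mem_left d (sub_mem hx₂ (J.mul_mem_left (p₂ * p') hx))
        convert this using 1
        linear_combination (-ι a b b) * hd + (d * p₂ * ι a b a) * hp'
      have haJ : ι a b a ∈ J := by
        have := J.mul_mem_left p' (sub_mem hx (J.mul_mem_left q hbJ))
        convert this using 1
        linear_combination (-ι a b a) * hp'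
      rw [I₀, Ideal.span_le]
      rintro y (rfl | rfl)
      exacts [haJ, hbJ]
    · exfalso
      have hsp : Ideal.span {a + π (p' * q) * b, b} = Ideal.span {a, b} :=
        Ideal.span_pair_add_mul_right _ _ _
      refine not_reduction (x := a + π (p' * q) * b) hb (fun z hz => ?_)
        (hsp ▸ pair_ne_top hn) (J.map π) (fun z hz => ?_) r (hsp ▸ hr')
      · obtain ⟨c, hc⟩ := hz
        exact swap_regular ha hab z ⟨c - π (p' * q) * z, by linear_combination hc⟩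
      · obtain ⟨x, hxJ, rfl⟩ := (Ideal.mem_map_iff_of_surjective π hsurj).1 hz
        obtain ⟨p₂, q₂, rfl⟩ := Ideal.mem_span_pair.1 (hJ hxJ)
        have : q₂ - p₂ * p' * q ∈ maximalIdeal (Rg a b) := fun hu => h2 ⟨p₂, q₂, hxJ, hu⟩
        refine ⟨π p₂, π (q₂ - p₂ * p' * q), ?_, ?_⟩
        · rw [hsp, ← hn]; exact (mem_max _).1 this
        · simp only [map_add, map_mul, map_sub, πa, πb]; ring
  · exfalso
    have hsp : Ideal.span {b, a} = Ideal.span {a, b} := Ideal.span_pair_comm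
    refine not_reduction (x := b) ha hab (hsp ▸ pair_ne_top hn) (J.map π) (fun z hz => ?_) r
      (hsp ▸ hr')
    obtain ⟨x, hxJ, rfl⟩ := (Ideal.mem_map_iff_of_surjective π hsurj).1 hz
    obtain ⟨p₂, q₂, rfl⟩ := Ideal.mem_span_pair.1 (hJ hxJ)
    have : p₂ ∈ maximalIdeal (Rg a b) := fun hu => h1 ⟨p₂, q₂, hxJ, hu⟩
    refine ⟨π q₂, π p₂, ?_, ?_⟩
    · rw [hsp, ← hn]; exact (mem_max _).1 this
    · simp only [map_add, map_mul, πa, πb]; ring

include ha hab in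
theorem isRegular_pair : RingTheory.Sequence.IsRegular (Rg a b) [ι a b a, ι a b b] := by
  rw [IsLocalRing.isRegular_iff_isWeaklyRegular_of_subset_maximalIdeal (by
    intro r hr
    exact I₀_le hn (Ideal.subset_span (by simpa using hr))),
    RingTheory.Sequence.isWeaklyRegular_cons_iff, RingTheory.Sequence.isWeaklyRegular_singleton_iff]
  constructor
  · intro x y h
    simp only [smul_eq_mul, ι_mul, mk.injEq, mul_right_inj' ha] at h
    obtain ⟨h0, h1, h2, h3, h4, h5, h6, h7, h8, h9⟩ := h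
    ext <;> assumption
  · rw [isSMulRegular_quotient_iff_mem_of_smul_mem]
    intro x hx
    rw [← Submodule.ideal_span_singleton_smul, smul_eq_mul, Ideal.mul_top,
      Ideal.mem_span_singleton] at hx ⊢
    obtain ⟨z, hz⟩ := hx
    simp only [smul_eq_mul, ι_mul, mk.injEq] at hz
    obtain ⟨h0, h1, h2, h3, h4, h5, h6, h7, h8, h9⟩ := hz
    obtain ⟨z0, k0⟩ := hab _ ⟨_, h0⟩
    obtain ⟨z1, k1⟩ := hab _ ⟨_, h1⟩
    obtain ⟨z2, k2⟩ := hab _ ⟨_, h2⟩
    obtain ⟨z3, k3⟩ := hab _ ⟨_, h3⟩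
    obtain ⟨z4, k4⟩ := hab _ ⟨_, h4⟩
    obtain ⟨z5, k5⟩ := hab _ ⟨_, h5⟩
    obtain ⟨z6, k6⟩ := hab _ ⟨_, h6⟩
    obtain ⟨z7, k7⟩ := hab _ ⟨_, h7⟩
    obtain ⟨z8, k8⟩ := hab _ ⟨_, h8⟩
    obtain ⟨z9, k9⟩ := hab _ ⟨_, h9⟩
    refine ⟨⟨z0, z1, z2, z3, z4, z5, z6, z7, z8, z9⟩, ?_⟩
    rw [ι_mul]
    ext <;> assumption

include ha hab in
theorem dim_eq_two [IsNoetherianRing B] : ringKrullDim (Rg a b) = 2 := by
  have h := ringKrullDim_add_length_eq_ringKrullDim_of_isRegular _ (isRegular_pair hn ha hab)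
  have e : Ideal.ofList [ι a b a, ι a b b] = I₀ a b := by
    simp [I₀, Ideal.span_insert]
  have : Nontrivial (Rg a b ⧸ I₀ a b) := Ideal.Quotient.nontrivial_iff.2
    (ne_top_of_le_ne_top (maximalIdeal.isMaximal _).ne_top (I₀_le hn))
  have h0 : ringKrullDim (Rg a b ⧸ I₀ a b) = 0 := by
    rw [← ringKrullDimZero_iff_ringKrullDim_eq_zero,
      Ideal.krullDimLE_zero_quotient_iff_forall_minimalPrimes_isMaximal]
    intro P hP
    have hP' := hP.1.1
    have h6 : maximalIdeal (Rg a b) ^ 6 ≤ P := by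
      rw [← red_ge_five hn 5 le_rfl]
      exact Ideal.mul_le_left.trans hP.1.2
    have := (maximalIdeal.isMaximal _).eq_of_le hP'.ne_top (hP'.le_of_pow_le h6)
    rw [← this]
    exact maximalIdeal.isMaximal _
  rw [e, h0] at h
  rw [← h]
  simp

end Rg

end Pool.Agent.P.MP_c61c44_al
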